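import Pool.Agent.Helper20_TWS.Stmts

/-! W_surface, module FAT: fat to thin. -/

set_option autoImplicit false

namespace Pool.Agent.TWS.H75

open Pool.Agent.TOR Pool.Agent.TOR.H58 Pool.Agent.TWS

/-- the action of an automorphism on the homology -/
noncomputable def lin {n : ℕ} (φ : MulAut (Fn n)) : Hn n →ₗ[ℚ] Hn n :=
  ∑ a : Fin 2 × Fin n, (LinearMap.proj a : Hn n →ₗ[ℚ] ℚ).smulRight (cls (φ (FreeGroup.of a)))

theorem lin_single {n : ℕ} (φ : MulAut (Fn n)) (a : Fin 2 × Fin n) :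
    lin φ (Pi.single a 1) = cls (φ (FreeGroup.of a)) := by
  unfold lin
  rw [LinearMap.sum_apply, Finset.sum_eq_single a]
  · rw [LinearMap.smulRight_apply, LinearMap.proj_apply, Pi.single_eq_same, one_smul]
  · intro b _ hb
    rw [LinearMap.smulRight_apply, LinearMap.proj_apply, Pi.single_eq_of_ne hb, zero_smul]
  · intro h
    exact absurd (Finset.mem_univ a) h

theorem lin_cls {n : ℕ} (φ : MulAut (Fn n)) (u : Fn n) : lin φ (cls u) = cls (φ u) := by
  have h : (AddMonoidHom.toMultiplicative (lin φ).toAddMonoidHom).comp (hc n) =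
      (hc n).comp (φ : Fn n →* Fn n) := by
    apply FreeGroup.ext_hom
    intro a
    have h1 : hc n (FreeGroup.of a) = Multiplicative.ofAdd (Pi.single a (1 : ℚ)) := by
      unfold hc
      rw [FreeGroup.lift_apply_of]
    change Multiplicative.ofAdd (lin φ (Multiplicative.toAdd (hc n (FreeGroup.of a)))) =
      hc n (φ (FreeGroup.of a))
    rw [h1, toAdd_ofAdd, lin_single]
    rfl
  exact congrArg Multiplicative.toAdd (DFunLike.congr_fun h u)

theorem fat : HndS → EucS → Cc2S → CloS → FatS := by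
  intro hH hE hC hL n hn i h h' o o' hc f
  obtain ⟨x, y⟩ := h
  obtain ⟨x', y'⟩ := h'
  have hm : ∀ v ∈ ({x, y} : Set (Av n)), (i, v) ∈ gp i {x, y} ∪ gp (i + 1) {x', y'} :=
    fun v hv => Or.inl ⟨v, hv, rfl⟩
  have hm' : ∀ v ∈ ({x', y'} : Set (Av n)), (i + 1, v) ∈ gp i {x, y} ∪ gp (i + 1) {x', y'} :=
    fun v hv => Or.inr ⟨v, hv, rfl⟩
  have h1 : H59.Hnd (H59.sR n) x.1 (y.1)⁻¹ :=
    (hH n).1 x y (H59.cmp_same (hc _ (hm x (by simp)) _ (hm y (by simp)))) o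
  have h2 : H59.Hnd (H59.sR n) x'.1 (y'.1)⁻¹ :=
    (hH n).1 x' y' (H59.cmp_same (hc _ (hm' x' (by simp)) _ (hm' y' (by simp)))) o'
  obtain ⟨φ, φz, φa, φa', φb, φb'⟩ := hC n ⟨0, by omega⟩ ⟨1, by omega⟩ rfl rfl i x.1 (y.1)⁻¹ x'.1
    (y'.1)⁻¹ h1 h2 (by
      have c1 := hc _ (hm x (by simp)) _ (hm' x' (by simp))
      have c2 := hc _ (hm x (by simp)) _ (hm' y' (by simp))
      have c3 := hc _ (hm y (by simp)) _ (hm' x' (by simp))
      have c4 := hc _ (hm y (by simp)) _ (hm' y' (by simp))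
      rintro m (rfl | rfl) m' (rfl | rfl)
      · exact c1
      · exact c2.inv_right
      · exact c3.inv_left
      · exact c4.inv_left.inv_right)
  obtain ⟨ψ, ψz, ψc, ψ1, ψ2⟩ := hE n ⟨0, by omega⟩ ⟨1, by omega⟩ rfl rfl (f ∘ₗ lin φ)
  set a : Fin n := ⟨0, by omega⟩ with ha
  set b : Fin n := ⟨1, by omega⟩ with hb
  have hθ : (φ * ψ) (H59.zeta n) = H59.zeta n := by
    rw [MulAut.mul_apply, ψz, φz]
  have hn0 : 0 < n := by omega
  have h0 : H59.Hnd (H59.sR n) (xl a) (yl a) := by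
    rw [← H59.hnd_std hn0 φ φz, φa, φa']
    exact h1
  have h3 : H59.Hnd (H59.sR n) (φ (ψ (xl a))) (φ (ψ (yl a))) :=
    (H59.hnd_std hn0 (φ * ψ) hθ).mpr h0
  have hcl : ∀ u ∈ Subgroup.closure ({xl a, yl a, xl b, yl b} : Set (Fn n)),
      φ u ∈ Subgroup.closure (({x.1, (y.1)⁻¹} : Set (Fn n)) ∪ {x'.1, (y'.1)⁻¹}) := by
    intro u hu
    have : Subgroup.closure ({xl a, yl a, xl b, yl b} : Set (Fn n)) ≤
        (Subgroup.closure (({x.1, (y.1)⁻¹} : Set (Fn n)) ∪ {x'.1, (y'.1)⁻¹})).comap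
          (φ : Fn n →* Fn n) := by
      rw [Subgroup.closure_le]
      rintro u (rfl | rfl | rfl | rfl)
      · change φ (xl a) ∈ Subgroup.closure (({x.1, (y.1)⁻¹} : Set (Fn n)) ∪ {x'.1, (y'.1)⁻¹})
        rw [φa]
        exact Subgroup.subset_closure (by simp)
      · change φ (yl a) ∈ Subgroup.closure (({x.1, (y.1)⁻¹} : Set (Fn n)) ∪ {x'.1, (y'.1)⁻¹})
        rw [φa']
        exact Subgroup.subset_closure (by simp)
      · change φ (xl b) ∈ Subgroup.closure (({x.1, (y.1)⁻¹} : Set (Fn n)) ∪ {x'.1, (y'.1)⁻¹})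
        rw [φb]
        exact Subgroup.subset_closure (by simp)
      · change φ (yl b) ∈ Subgroup.closure (({x.1, (y.1)⁻¹} : Set (Fn n)) ∪ {x'.1, (y'.1)⁻¹})
        rw [φb']
        exact Subgroup.subset_closure (by simp)
    exact this hu
  have hu1 := hcl _ (ψc (xl a) (Subgroup.subset_closure (by simp)))
  have hu2 := hcl _ (ψc (yl a) (Subgroup.subset_closure (by simp)))
  refine ⟨(⟨φ (ψ (xl a)), h3.1⟩, ⟨(φ (ψ (yl a)))⁻¹, h3.2.1⟩), ?_, ?_, ?_, ?_, ?_⟩
  · change H59.Cmp (H59.sR n) i (φ (ψ (xl a))) i (φ (ψ (yl a)))⁻¹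
    exact H59.cmp_same h3.2.2.1.inv_right
  · exact (hH n).2 _ _ h3
  · change f (cls (φ (ψ (xl a)))) = 0
    rw [← lin_cls]
    exact ψ1
  · change f (cls (φ (ψ (yl a)))⁻¹) = 0
    have e : cls (φ (ψ (yl a)))⁻¹ = -cls (φ (ψ (yl a))) := by
      unfold cls
      rw [map_inv, toAdd_inv]
    rw [e, map_neg, ← lin_cls, neg_eq_zero]
    exact ψ2
  · rintro ⟨j, m⟩ hj hj' hq
    have q1 := hq _ (hm x (by simp))
    have q2 := hq _ (hm y (by simp))
    have q3 := hq _ (hm' x' (by simp))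
    have q4 := hq _ (hm' y' (by simp))
    have key : ∀ u ∈ Subgroup.closure (({x.1, (y.1)⁻¹} : Set (Fn n)) ∪ {x'.1, (y'.1)⁻¹}),
        H59.Cmp (H59.sR n) j m.1 i u := by
      refine hL n i j m.1 _ _ hj hj' ?_ ?_
      · rintro k (rfl | rfl)
        · exact q1
        · exact H59.Cmp.inv_right q2
      · rintro k (rfl | rfl)
        · exact q3
        · exact H59.Cmp.inv_right q4
    exact ⟨key _ hu1, (key _ hu2).inv_right⟩

end Pool.Agent.TWS.H75
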